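import Pool.Agent.Helper96.ME.Lib

/-!
# MP_bde085_nt, block E, module TOTE: a small integral symbol
-/

set_option autoImplicit false

namespace Pool.Agent.Helper96.ME

open Pool.Agent.Helper96.MP
open scoped MatrixGroups

/-- the point of a matrix -/
noncomputable def tote_pt (M Q : ℕ) (y : SL(2, ℤ)) : SL(2, ZMod M) × PN Q := (rd M y, cls Q y)

open Classical in
/-- rows -/
noncomputable def tote_row (M Q : ℕ) (s : Finset (ℕ × ℕ × ℕ × ℕ))
    (F : ℕ × ℕ × ℕ × ℕ → SL(2, ℤ)) (k : ℤ) (y : SL(2, ℤ)) (x : SL(2, ZMod M) × PN Q) : ℤ :=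
  ∑ m ∈ s, (if tote_pt M Q (F m) = x then 1 else 0) - k * (if tote_pt M Q y = x then 1 else 0)

/-- the rows used -/
inductive tote_Adm (M Q : ℕ) (a : ℕ → ℤ) (ε : ℤ) : Finset (ℕ × ℕ × ℕ × ℕ) →
    (ℕ × ℕ × ℕ × ℕ → SL(2, ℤ)) → ℤ → SL(2, ℤ) → Prop
  | two (y : SL(2, ℤ)) : tote_Adm M Q a ε {(0, 0, 0, 0)} (fun _ => y * ModularGroup.S) (-1) y
  | three (y : SL(2, ℤ)) : tote_Adm M Q a ε {(0, 0, 0, 0), (1, 0, 0, 0)}
      (fun m => if m.1 = 0 then y * mR else y * (mR * mR)) (-1) y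
  | sign (y : SL(2, ℤ)) : tote_Adm M Q a ε {(0, 0, 0, 0)} (fun _ => cj y) ε y
  | hecke1 (l : ℕ) (y : SL(2, ℤ)) (F : ℕ × ℕ × ℕ × ℕ → SL(2, ℤ)) (h1 : l.Prime)
      (h2 : ¬ l ∣ Q * M ^ 2) (h3 : l ≤ (Q * M ^ 2) ^ 6) (h4 : AdF M Q l y F) :
      tote_Adm M Q a ε (Sn l) F (a l) y
  | hecke2 (l : ℕ) (y : SL(2, ℤ)) (F : ℕ × ℕ × ℕ × ℕ → SL(2, ℤ)) (h1 : l.Prime)
      (h2 : ¬ l ∣ Q * M ^ 2) (h3 : l ≤ (Q * M ^ 2) ^ 6) (h4 : AdF M Q (l ^ 2) y F) :
      tote_Adm M Q a ε (Sn (l ^ 2)) F ((a l) ^ 2 - l) y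

/-- the set of rows -/
def tote_Rw (M Q : ℕ) (a : ℕ → ℤ) (ε : ℤ) : Set (SL(2, ZMod M) × PN Q → ℤ) :=
  {w | ∃ s F k y, tote_Adm M Q a ε s F k y ∧ w = tote_row M Q s F k y}

theorem tote_pair {M Q : ℕ} [Fintype (SL(2, ZMod M) × PN Q)] (s : Finset (ℕ × ℕ × ℕ × ℕ))
    (F : ℕ × ℕ × ℕ × ℕ → SL(2, ℤ)) (k : ℤ) (y : SL(2, ℤ)) (v : SL(2, ZMod M) × PN Q → ℝ) :
    ∑ x, (tote_row M Q s F k y x : ℝ) * v x =
      ∑ m ∈ s, v (tote_pt M Q (F m)) - k * v (tote_pt M Q y) := by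
  classical
  unfold tote_row
  have h1 : ∀ x, (((∑ m ∈ s, (if tote_pt M Q (F m) = x then 1 else 0) -
      k * (if tote_pt M Q y = x then 1 else 0) : ℤ) : ℝ)) * v x =
      ∑ m ∈ s, (if tote_pt M Q (F m) = x then v x else 0) -
        k * (if tote_pt M Q y = x then v x else 0) := by
    intro x
    push_cast
    rw [sub_mul, Finset.sum_mul]
    congr 1
    · apply Finset.sum_congr rfl
      intro m _
      split_ifs <;> simp
    · split_ifs <;> simp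
  simp_rw [h1]
  rw [Finset.sum_sub_distrib, Finset.sum_comm, ← Finset.mul_sum]
  simp

theorem tote_l1 {M Q : ℕ} [Fintype (SL(2, ZMod M) × PN Q)] (s : Finset (ℕ × ℕ × ℕ × ℕ))
    (F : ℕ × ℕ × ℕ × ℕ → SL(2, ℤ)) (k : ℤ) (y : SL(2, ℤ)) :
    ∑ x, |(tote_row M Q s F k y x : ℝ)| ≤ s.card + |(k : ℝ)| := by
  classical
  unfold tote_row
  have h1 : ∀ x, |(((∑ m ∈ s, (if tote_pt M Q (F m) = x then 1 else 0) -
      k * (if tote_pt M Q y = x then 1 else 0) : ℤ) : ℝ))| ≤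
      ∑ m ∈ s, (if tote_pt M Q (F m) = x then (1 : ℝ) else 0) +
        |(k : ℝ)| * (if tote_pt M Q y = x then 1 else 0) := by
    intro x
    push_cast
    refine (abs_sub _ _).trans (add_le_add ?_ ?_)
    · rw [abs_of_nonneg]
      apply Finset.sum_nonneg
      intro m _
      split_ifs <;> norm_num
    · rw [abs_mul]
      apply mul_le_mul_of_nonneg_left _ (abs_nonneg _)
      split_ifs <;> simp
  refine (Finset.sum_le_sum fun x _ => h1 x).trans ?_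
  rw [Finset.sum_add_distrib, Finset.sum_comm, ← Finset.mul_sum]
  simp

/-- the relations without the left invariance -/
def tote_Rel (M Q : ℕ) (a : ℕ → ℤ) (ε : ℝ) (v : SL(2, ZMod M) × PN Q → ℝ) : Prop :=
  (∀ y : SL(2, ℤ), v (tote_pt M Q y) + v (tote_pt M Q (y * ModularGroup.S)) = 0) ∧
  (∀ y : SL(2, ℤ), v (tote_pt M Q y) + v (tote_pt M Q (y * mR)) +
    v (tote_pt M Q (y * (mR * mR))) = 0) ∧
  (∀ y : SL(2, ℤ), v (tote_pt M Q (cj y)) = ε * v (tote_pt M Q y)) ∧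
  (∀ l : ℕ, l.Prime → ¬ l ∣ Q * M ^ 2 → l ≤ (Q * M ^ 2) ^ 6 →
    HW M Q l (a l) (fun g z => v (g, z)) ∧ HW M Q (l ^ 2) ((a l : ℝ) ^ 2 - l) (fun g z => v (g, z)))

theorem tote_rel_iff {M Q : ℕ} {a : ℕ → ℤ} {ε : ℤ} [Fintype (SL(2, ZMod M) × PN Q)]
    (v : SL(2, ZMod M) × PN Q → ℝ) :
    (∀ w ∈ tote_Rw M Q a ε, ∑ x, (w x : ℝ) * v x = 0) ↔ tote_Rel M Q a ε v := by
  constructor
  · intro h
    have key : ∀ s F k y, tote_Adm M Q a ε s F k y →
        ∑ m ∈ s, v (tote_pt M Q (F m)) - k * v (tote_pt M Q y) = 0 := by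
      intro s F k y hA
      rw [← tote_pair]
      exact h _ ⟨s, F, k, y, hA, rfl⟩
    refine ⟨?_, ?_, ?_, ?_⟩
    · intro y
      have := key _ _ _ _ (tote_Adm.two y)
      simp at this
      linarith
    · intro y
      have := key _ _ _ _ (tote_Adm.three y)
      rw [Finset.sum_pair (by decide)] at this
      simp at this
      linarith
    · intro y
      have := key _ _ _ _ (tote_Adm.sign y)
      simp at this
      linarith
    · intro l h1 h2 h3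
      constructor
      · intro y F hF
        have := key _ _ _ _ (tote_Adm.hecke1 l y F h1 h2 h3 hF)
        exact sub_eq_zero.1 this
      · intro y F hF
        have := key _ _ _ _ (tote_Adm.hecke2 l y F h1 h2 h3 hF)
        push_cast at this
        exact sub_eq_zero.1 this
  · rintro ⟨h2, h3, hs, hh⟩ w ⟨s, F, k, y, hA, rfl⟩
    rw [tote_pair]
    cases hA with
    | two y => have := h2 y; simp; linarith
    | three y =>
      have := h3 y
      rw [Finset.sum_pair (by decide)]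
      simp; linarith
    | sign y => have := hs y; simp; linarith
    | hecke1 l y F p1 p2 p3 p4 => exact sub_eq_zero.2 ((hh l p1 p2 p3).1 y F p4)
    | hecke2 l y F p1 p2 p3 p4 =>
      push_cast
      exact sub_eq_zero.2 ((hh l p1 p2 p3).2 y F p4)

theorem tote_RW {M Q : ℕ} {a : ℕ → ℤ} {ε : ℝ} {v : SL(2, ZMod M) × PN Q → ℝ}
    (h : tote_Rel M Q a ε v)
    (hl : ∀ (u : (ZMod M)ˣ) (g : SL(2, ZMod M)) (z : PN Q), v (dg u * g, z) = v (g, z)) :
    RW M Q a ε (fun g z => v (g, z)) :=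
  ⟨hl, h.1, h.2.1, h.2.2.1, h.2.2.2⟩

theorem tote_rel_of_RW {M Q : ℕ} {a : ℕ → ℤ} {ε : ℝ} {w : SL(2, ZMod M) → PN Q → ℝ}
    (h : RW M Q a ε w) : tote_Rel M Q a ε (fun x => w x.1 x.2) :=
  ⟨h.two, h.three, h.sign, h.hecke⟩

/-- the space of functions reproduced by `φ` in the first variable -/
def tote_V (M Q : ℕ) [NeZero M] (φ : SL(2, ZMod M) → ℝ) :
    Submodule ℝ (SL(2, ZMod M) × PN Q → ℝ) where
  carrier := {w | ∀ z, YS φ (fun g => w (g, z))}
  zero_mem' := by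
    intro z y
    simp
  add_mem' := by
    intro w w' h h' z y
    have h1 := h z y
    have h2 := h' z y
    have : Fintype SL(2, ZMod M) := Fintype.ofFinite _
    rw [finsum_eq_sum_of_fintype] at h1 h2 ⊢
    simp only [smul_eq_mul, Pi.add_apply] at h1 h2 ⊢
    rw [mul_add, ← h1, ← h2, ← Finset.sum_add_distrib]
    apply Finset.sum_congr rfl
    intro x _; ring
  smul_mem' := by
    intro c w h z y
    have h1 := h z y
    have : Fintype SL(2, ZMod M) := Fintype.ofFinite _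
    rw [finsum_eq_sum_of_fintype] at h1 ⊢
    simp only [smul_eq_mul, Pi.smul_apply] at h1 ⊢
    calc ∑ x, φ x * (c * w (x * y, z)) = c * ∑ x, φ x * w (x * y, z) := by
          rw [Finset.mul_sum]; apply Finset.sum_congr rfl; intro x _; ring
      _ = sq φ * (c * w (y, z)) := by rw [h1]; ring

theorem tote_mem_V {M Q : ℕ} [NeZero M] {φ : SL(2, ZMod M) → ℝ}
    {w : SL(2, ZMod M) × PN Q → ℝ} : w ∈ tote_V M Q φ ↔ ∀ z, YS φ (fun g => w (g, z)) := Iff.rfl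

/-- a subspace cut out by rows -/
def tote_E {P : Type} [Fintype P] (V : Submodule ℝ (P → ℝ)) (Rw : ℕ → Set (P → ℤ)) (j : ℕ) :
    Submodule ℝ (P → ℝ) where
  carrier := {v | v ∈ V ∧ ∀ i, i < j → ∀ w ∈ Rw i, ∑ x, (w x : ℝ) * v x = 0}
  zero_mem' := ⟨V.zero_mem, fun i _ w _ => by simp⟩
  add_mem' := by
    rintro v v' ⟨h1, h2⟩ ⟨h1', h2'⟩
    refine ⟨V.add_mem h1 h1', fun i hi w hw => ?_⟩
    have e1 := h2 i hi w hw
    have e2 := h2' i hi w hw
    simp only [Pi.add_apply, mul_add, Finset.sum_add_distrib, e1, e2, add_zero]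
  smul_mem' := by
    rintro c v ⟨h1, h2⟩
    refine ⟨V.smul_mem c h1, fun i hi w hw => ?_⟩
    have e1 := h2 i hi w hw
    calc ∑ x, (w x : ℝ) * (c • v) x = c * ∑ x, (w x : ℝ) * v x := by
          rw [Finset.mul_sum]; apply Finset.sum_congr rfl; intro x _
          simp only [Pi.smul_apply, smul_eq_mul]; ring
      _ = 0 := by rw [e1, mul_zero]

theorem tote_finrank_LB {P : Type} [Fintype P] {V : Submodule ℝ (P → ℝ)} {r : ℕ} {D : ℝ}
    (h : LB P V r D) : Module.finrank ℝ V = r := by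
  obtain ⟨ι, i1, i2, b, hc, hli, hsp, _⟩ := h
  rw [← hsp, finrank_span_eq_card hli, hc]

/-- bound for the eigenvalues -/
theorem tote_a_bound (hST : ST_STRICT) {N : ℕ} {a : ℕ → ℤ} (hN : 1 ≤ N) (ha : Newform N a)
    {l : ℕ} (hl : l.Prime) (hlN : ¬ l ∣ N) : |(a l : ℝ)| ≤ l + 1 := by
  have h := hST N l (fun k => (a k : ℂ)) (a l : ℂ) hN hl hlN ha.cusp
    ⟨1, by rw [ha.one]; norm_num⟩
    (by
      intro n
      unfold Tl
      have h1 := ha.hecke l hl hlN n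
      have h2 := congrArg (fun z : ℤ => (z : ℂ)) h1
      push_cast at h2
      rw [← h2])
  have h3 : ‖((a l : ℤ) : ℂ)‖ = |(a l : ℝ)| := by
    rw [← Complex.ofReal_intCast, Complex.norm_real, Real.norm_eq_abs]
  rw [h3] at h
  exact h.le

theorem tote_rpow_bound {N n : ℕ} (hn : n ≤ N ^ 12) :
    (n : ℝ) ^ (9 / 8 : ℝ) ≤ ((N : ℝ) + 1) ^ 14 := by
  have h0 : (0 : ℝ) ≤ (n : ℝ) := Nat.cast_nonneg n
  have h1 : (1 : ℝ) ≤ (N : ℝ) + 1 := by
    have : (0 : ℝ) ≤ N := Nat.cast_nonneg N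
    linarith
  have h2 : (n : ℝ) ≤ ((N : ℝ) + 1) ^ 12 := by
    calc (n : ℝ) ≤ ((N ^ 12 : ℕ) : ℝ) := by exact_mod_cast hn
      _ = (N : ℝ) ^ 12 := by push_cast; ring
      _ ≤ ((N : ℝ) + 1) ^ 12 := pow_le_pow_left₀ (Nat.cast_nonneg N) (by linarith) 12
  calc (n : ℝ) ^ (9 / 8 : ℝ) ≤ (((N : ℝ) + 1) ^ 12) ^ (9 / 8 : ℝ) :=
        Real.rpow_le_rpow h0 h2 (by norm_num)
    _ ≤ (((N : ℝ) + 1) ^ 12) ^ (7 / 6 : ℝ) :=
        Real.rpow_le_rpow_of_exponent_le (one_le_pow₀ h1) (by norm_num)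
    _ = ((N : ℝ) + 1) ^ 14 := by
        rw [← Real.rpow_natCast ((N : ℝ) + 1) 12, ← Real.rpow_mul (by linarith),
          ← Real.rpow_natCast ((N : ℝ) + 1) 14]
        norm_num

/-- size of the rows -/
theorem tote_row_bound (hST : ST_STRICT) {Cs : ℝ} (hCs : 0 < Cs)
    (hSn : ∀ n : ℕ, 1 ≤ n → ((Sn n).card : ℝ) ≤ Cs * (n : ℝ) ^ (9 / 8 : ℝ))
    {M Q : ℕ} (hM : 1 ≤ M) (hQ : 1 ≤ Q) {a : ℕ → ℤ} {ε : ℤ} (hε : ε = 1 ∨ ε = -1)
    (ha : Newform (Q * M ^ 2) a) [Fintype (SL(2, ZMod M) × PN Q)] :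
    ∀ w ∈ tote_Rw M Q a ε, ∑ x, |(w x : ℝ)| ≤ (Cs + 3) * (((Q * M ^ 2 : ℕ) : ℝ) + 1) ^ 14 := by
  rintro w ⟨s, F, k, y, hA, rfl⟩
  refine (tote_l1 s F k y).trans ?_
  set N := Q * M ^ 2 with hN
  have hN1 : 1 ≤ N := by
    rw [hN]; exact Nat.mul_pos hQ (Nat.pow_pos hM)
  have hx1 : (1 : ℝ) ≤ (N : ℝ) + 1 := by
    have : (0 : ℝ) ≤ N := Nat.cast_nonneg N
    linarith
  have hpow : ∀ j, (1 : ℝ) ≤ ((N : ℝ) + 1) ^ j := fun j => one_le_pow₀ hx1
  have hl : ∀ l : ℕ, l ≤ N ^ 6 → (l : ℝ) + 1 ≤ ((N : ℝ) + 1) ^ 6 := by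
    intro l hl
    have h1 : (l : ℝ) ≤ (N : ℝ) ^ 6 := by exact_mod_cast hl
    have h2 : (N : ℝ) ^ 6 + 1 ≤ ((N : ℝ) + 1) ^ 6 := by
      have h0 : (0 : ℝ) ≤ (N : ℝ) := Nat.cast_nonneg N
      have : ((N : ℝ) + 1) ^ 6 = (N : ℝ) ^ 6 + 1 + (6 * (N : ℝ) ^ 5 + 15 * (N : ℝ) ^ 4 +
        20 * (N : ℝ) ^ 3 + 15 * (N : ℝ) ^ 2 + 6 * N) := by ring
      rw [this]
      have : (0 : ℝ) ≤ (6 * (N : ℝ) ^ 5 + 15 * (N : ℝ) ^ 4 +
        20 * (N : ℝ) ^ 3 + 15 * (N : ℝ) ^ 2 + 6 * N) := by positivity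
      linarith
    linarith
  have h6 : ((N : ℝ) + 1) ^ 6 ≤ ((N : ℝ) + 1) ^ 14 := pow_le_pow_right₀ hx1 (by norm_num)
  have h12 : ((N : ℝ) + 1) ^ 12 ≤ ((N : ℝ) + 1) ^ 14 := pow_le_pow_right₀ hx1 (by norm_num)
  have h14 := hpow 14
  cases hA with
  | two y => simp only [Finset.card_singleton]; norm_num; nlinarith
  | three y =>
    rw [Finset.card_pair (by decide)]; norm_num; nlinarith
  | sign y =>
    have : |(ε : ℝ)| = 1 := by rcases hε with h | h <;> simp [h]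
    rw [this]; simp only [Finset.card_singleton]; norm_num; nlinarith
  | hecke1 l y F p1 p2 p3 p4 =>
    have e1 := hSn l p1.one_le
    have e2 := tote_rpow_bound (N := N) (n := l) (p3.trans (Nat.pow_le_pow_right hN1 (by norm_num)))
    have e3 := tote_a_bound hST hN1 ha p1 p2
    have e4 := hl l p3
    have e5 : Cs * (l : ℝ) ^ (9 / 8 : ℝ) ≤ Cs * ((N : ℝ) + 1) ^ 14 :=
      mul_le_mul_of_nonneg_left e2 hCs.le
    nlinarith
  | hecke2 l y F p1 p2 p3 p4 =>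
    have e1 := hSn (l ^ 2) (Nat.one_le_pow _ _ p1.one_le)
    have hl2 : l ^ 2 ≤ N ^ 12 := by
      calc l ^ 2 ≤ (N ^ 6) ^ 2 := Nat.pow_le_pow_left p3 2
        _ = N ^ 12 := by rw [← pow_mul]
    have e2 := tote_rpow_bound (N := N) (n := l ^ 2) hl2
    have e3 := tote_a_bound hST hN1 ha p1 p2
    have e4 := hl l p3
    have e5 : Cs * ((l ^ 2 : ℕ) : ℝ) ^ (9 / 8 : ℝ) ≤ Cs * ((N : ℝ) + 1) ^ 14 :=
      mul_le_mul_of_nonneg_left e2 hCs.le
    have hl0 : (0 : ℝ) ≤ l := Nat.cast_nonneg l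
    have e6 : |(((a l) ^ 2 - l : ℤ) : ℝ)| ≤ 2 * ((N : ℝ) + 1) ^ 12 := by
      push_cast
      have f1 : (a l : ℝ) ^ 2 ≤ (((N : ℝ) + 1) ^ 6) ^ 2 := by
        rw [← sq_abs]
        exact pow_le_pow_left₀ (abs_nonneg _) (e3.trans e4) 2
      have f2 : (((N : ℝ) + 1) ^ 6) ^ 2 = ((N : ℝ) + 1) ^ 12 := by rw [← pow_mul]
      rw [f2] at f1
      have f3 : (l : ℝ) ≤ ((N : ℝ) + 1) ^ 12 := by
        have : ((N : ℝ) + 1) ^ 6 ≤ ((N : ℝ) + 1) ^ 12 := pow_le_pow_right₀ hx1 (by norm_num)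
        linarith
      rw [abs_le]
      constructor
      · nlinarith [sq_nonneg (a l : ℝ)]
      · nlinarith [sq_nonneg (a l : ℝ)]
    nlinarith

theorem tote_ne {M : ℕ} (hM : 1 ≤ M) (y : SL(2, ℤ)) (j : Fin 2) :
    (y 0 j ≠ 0 ∨ (M : ℤ) * y 1 j ≠ 0) := by
  by_contra h
  push Not at h
  obtain ⟨h1, h2⟩ := h
  have hM' : (M : ℤ) ≠ 0 := by exact_mod_cast (by omega : M ≠ 0)
  have h3 : y 1 j = 0 := (mul_eq_zero.1 h2).resolve_left hM'
  have hd := Lib.det1 y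
  fin_cases j
  · simp only [Fin.zero_eta, Fin.isValue] at h1 h3
    rw [h1, h3] at hd; simp at hd
  · simp only [Fin.mk_one, Fin.isValue] at h1 h3
    rw [h1, h3] at hd; simp at hd

theorem st_TOTE (hPDIM : ST_PDIM) (hSPX : ST_SPX) (hGIND : ST_GIND) (hLFT : ST_LFT)
    (hPWX : ST_PWX) (hYSW : ST_YSW) (hSPA : ST_SPA) (hLBV : ST_LBV) (hLA2 : ST_LA2)
    (hFWD : ST_FWD) (hBWD : ST_BWD) (hST : ST_STRICT) (hSC : ST_SCARD) (hPNF : ST_PNF)
    (hCONN : ST_CONN) : ST_TOTE := by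
  obtain ⟨Cs, hCs, hSn⟩ := hSC
  have hlog2 : 0 < Real.log 2 := Real.log_pos (by norm_num)
  refine ⟨18 + Real.log (Cs + 3) / Real.log 2, ?_, ?_⟩
  · have : 0 ≤ Real.log (Cs + 3) := Real.log_nonneg (by linarith)
    have := div_nonneg this hlog2.le
    linarith
  intro M Q a ε hM hMs hQ hco ha hε
  have : NeZero M := ⟨by omega⟩
  set N := Q * M ^ 2 with hN
  have hN1 : 1 ≤ N := by rw [hN]; exact Nat.mul_pos hQ (Nat.pow_pos hM)
  have hε' : (ε : ℝ) = 1 ∨ (ε : ℝ) = -1 := by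
    rcases hε with h | h <;> simp [h]
  obtain ⟨C0, hPT, hnc, huniq⟩ := hPDIM N a ε hN1 ha hε'
  obtain ⟨φ, hφ0, hφi, hφe⟩ := hSPX M Q a ε C0 hM hQ hco hPT hnc huniq
  have hφ : Sph (ZMod M) φ := (hGIND M hM hMs φ hφ0).1
  obtain ⟨w0, hw0⟩ := hPWX M Q _ hM hQ hco hPT.hom hPT.eqv
  have hRW0 := hFWD M Q a ε _ w0 hM hQ hco hPT hw0
  have hYS0 := hYSW M Q _ φ w0 hM hQ hco hPT.hom hw0 hφe
  have hfin : Finite (PN Q) := (hPNF Q hQ).1
  have f1 : Fintype SL(2, ZMod M) := Fintype.ofFinite _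
  have f2 : Fintype (PN Q) := Fintype.ofFinite _
  obtain ⟨r, D, hLB, hD1, hr, hlogD⟩ := hLBV M Q φ hM hMs hQ hco hφ hφi (tote_V M Q φ)
    (fun w => tote_mem_V)
  set V := tote_V M Q φ with hV
  -- rows
  set Rw : ℕ → Set (SL(2, ZMod M) × PN Q → ℤ) :=
    fun i => if i = 0 then tote_Rw M Q a ε else ∅ with hRw
  set B : ℝ := (Cs + 3) * (((N : ℕ) : ℝ) + 1) ^ 14 with hB
  have hx1 : (1 : ℝ) ≤ (N : ℝ) + 1 := by
    have : (0 : ℝ) ≤ N := Nat.cast_nonneg N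
    linarith
  have hB1 : 1 ≤ B := by
    have h1 : (1 : ℝ) ≤ ((N : ℝ) + 1) ^ 14 := one_le_pow₀ hx1
    rw [hB]; nlinarith
  set E := tote_E V Rw with hE
  have hEmem : ∀ v, v ∈ E 1 ↔ v ∈ V ∧ tote_Rel M Q a ε v := by
    intro v
    constructor
    · rintro ⟨h1, h2⟩
      refine ⟨h1, (tote_rel_iff v).1 fun w hw => h2 0 (by norm_num) w ?_⟩
      simpa [hRw] using hw
    · rintro ⟨h1, h2⟩
      refine ⟨h1, ?_⟩
      intro i hi w hw
      have hi0 : i = 0 := by omega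
      subst hi0
      exact (tote_rel_iff v).2 h2 w (by simpa [hRw] using hw)
  have hleft : ∀ v ∈ V, ∀ (u : (ZMod M)ˣ) (g : SL(2, ZMod M)) (z : PN Q),
      v (dg u * g, z) = v (g, z) := by
    intro v hv u g z
    exact (((hSPA (ZMod M) φ hφ).2.2.2.2.2 ℝ (fun g => v (g, z)) (hv z)).2.2.1 u g)
  -- the symbol of C0
  set v0 : SL(2, ZMod M) × PN Q → ℝ := fun x => w0 x.1 x.2 with hv0
  have hv0E : v0 ∈ E 1 := (hEmem v0).2 ⟨fun z => hYS0 z, tote_rel_of_RW hRW0⟩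
  have hv0ne : v0 ≠ 0 := by
    intro h0
    obtain ⟨x, y, hxy, hne⟩ := hnc
    apply hne
    have hMZ : (M : ℤ) ≠ 0 := by exact_mod_cast (by omega : M ≠ 0)
    have hC := hCONN ℝ ⊥ (fun p q => (C0 p (M * q) : ℝ))
      (by
        intro k p q hk
        have := hPT.hom k p (M * q) hk
        simp only at this ⊢
        rw [← this]; congr 2; ring)
      (by
        intro p x q y hdet
        rw [AddSubgroup.mem_bot]
        have h1 := hw0 ⟨!![p, x; q, y], by rw [Matrix.det_fin_two_of]; exact hdet⟩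
        have h2 := congrFun h0 (tote_pt M Q ⟨!![p, x; q, y], by
          rw [Matrix.det_fin_two_of]; exact hdet⟩)
        simp only [hv0, tote_pt, Pi.zero_apply] at h2
        rw [h2] at h1
        simpa using h1.symm)
    have h1 : ∀ x y : ℤ, (x ≠ 0 ∨ y ≠ 0) → (C0 x y : ℝ) = C0 1 (M * 0) := by
      intro x y hxy
      have h2 := hC (M * x) y (by
        rcases hxy with h | h
        · left; exact mul_ne_zero hMZ h
        · right; exact h)
      rw [AddSubgroup.mem_bot, sub_eq_zero] at h2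
      have h2' : (C0 (M * x) (M * y) : ℝ) = C0 1 (M * 0) := h2
      have h3 : (C0 (M * x) (M * y) : ℝ) = C0 x y := hPT.hom M x y hMZ
      rw [← h3, h2']
    have h4 := h1 x y hxy
    have h5 := h1 1 0 (Or.inl one_ne_zero)
    rw [← h5] at h4
    exact_mod_cast h4
  have hfr1 : Module.finrank ℝ (E 1) = 1 := by
    rw [finrank_eq_one_iff_of_nonzero' (⟨v0, hv0E⟩ : E 1)
      (fun h => hv0ne (congrArg Subtype.val h))]
    rintro ⟨v, hv⟩
    obtain ⟨hvV, hvR⟩ := (hEmem v).1 hv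
    have hRWv := tote_RW hvR (hleft v hvV)
    obtain ⟨C, hC1, hC2⟩ := hBWD M Q a ε _ hM hQ hco hRWv
    obtain ⟨κ, κ', hκ⟩ := huniq C hC1
    refine ⟨κ, Subtype.ext ?_⟩
    funext x
    obtain ⟨g, z⟩ := x
    obtain ⟨y, hy1, hy2⟩ := (hLFT M Q hM hQ hco).2 g z
    have e1 : v (rd M y, cls Q y) = C (y 0 0) (M * y 1 0) - C (y 0 1) (M * y 1 1) := hC2 y
    have e2 : w0 (rd M y) (cls Q y) = (C0 (y 0 0) (M * y 1 0) : ℝ) - C0 (y 0 1) (M * y 1 1) := hw0 y
    rw [hy1, hy2] at e1 e2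
    have e3 := hκ (y 0 0) (M * y 1 0) (tote_ne hM y 0)
    have e4 := hκ (y 0 1) (M * y 1 1) (tote_ne hM y 1)
    simp only at e3 e4
    simp only [Submodule.coe_smul, Pi.smul_apply, smul_eq_mul, hv0]
    rw [e2, e1, e3, e4]; ring
  -- linear algebra
  obtain ⟨v, hvne, hvE, hvb⟩ := hLA2 (SL(2, ZMod M) × PN Q) V r D hLB 1 Rw (fun _ => B) E
    (fun _ => hB1)
    (by
      intro j w hw
      by_cases hj : j = 0
      · subst hj
        exact tote_row_bound hST hCs (fun n hn => (hSn n hn).2) hM hQ hε ha w (by simpa [hRw] using hw)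
      · simp [hRw, hj] at hw)
    (fun j v => Iff.rfl) hfr1
  refine ⟨fun g z => v (g, z), ?_, ?_, ?_⟩
  · by_contra hcon
    push Not at hcon
    apply hvne
    funext x
    exact hcon x.1 x.2
  · obtain ⟨h1, h2⟩ := (hEmem _).1 hvE
    exact tote_RW h2 (hleft _ h1)
  · intro g z
    refine (hvb (g, z)).trans ?_
    rw [Finset.prod_range_one]
    have hfr0 : Module.finrank ℝ (E 0) = r := by
      have : E 0 = V := by
        ext v
        constructor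
        · rintro ⟨h1, _⟩; exact h1
        · intro h1; exact ⟨h1, fun i hi => absurd hi (by omega)⟩
      rw [this]; exact tote_finrank_LB hLB
    have hpsi : 0 ≤ psi (Q * M) := le_trans (Nat.cast_nonneg r) hr
    have hB0 : 0 < B := by linarith
    have h1 : B ^ (Module.finrank ℝ (E 0) - Module.finrank ℝ (E (0 + 1))) ≤
        Real.exp (psi (Q * M) * Real.log B) := by
      calc B ^ (Module.finrank ℝ (E 0) - Module.finrank ℝ (E (0 + 1))) ≤ B ^ r :=
            pow_le_pow_right₀ hB1 (by rw [hfr0]; omega)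
        _ = Real.exp (r * Real.log B) := by
            rw [mul_comm, Real.exp_mul, Real.exp_log hB0, Real.rpow_natCast]
        _ ≤ _ := by
            apply Real.exp_le_exp.2
            exact mul_le_mul_of_nonneg_right hr (Real.log_nonneg hB1)
    have hD0 : 0 < D := by linarith
    have h2 : Real.sqrt D ≤ Real.exp (4 * psi (Q * M) * Real.log M) := by
      have : Real.sqrt D = Real.exp (Real.log D / 2) := by
        rw [Real.exp_half, Real.exp_log hD0]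
      rw [this]
      apply Real.exp_le_exp.2
      linarith
    have h3 : Real.sqrt D * B ^ (Module.finrank ℝ (E 0) - Module.finrank ℝ (E (0 + 1))) ≤
        Real.exp (4 * psi (Q * M) * Real.log M + psi (Q * M) * Real.log B) := by
      rw [Real.exp_add]
      exact mul_le_mul h2 h1 (by positivity) (Real.exp_nonneg _)
    refine h3.trans (Real.exp_le_exp.2 ?_)
    have hlN : Real.log 2 ≤ Real.log ((N : ℝ) + 1) := by
      apply Real.log_le_log (by norm_num)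
      have : (1 : ℝ) ≤ N := by exact_mod_cast hN1
      linarith
    have hlM : Real.log M ≤ Real.log ((N : ℝ) + 1) := by
      apply Real.log_le_log
      · exact_mod_cast hM
      · have : (M : ℝ) ≤ N := by
          have : M ≤ N := by
            rw [hN]
            calc M = 1 * (M * 1) := by ring
              _ ≤ Q * (M * M) := Nat.mul_le_mul hQ (Nat.mul_le_mul_left _ hM)
              _ = Q * M ^ 2 := by ring
          exact_mod_cast this
        linarith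
    have hlB : Real.log B = Real.log (Cs + 3) + 14 * Real.log ((N : ℝ) + 1) := by
      rw [hB, Real.log_mul (by positivity) (by positivity), Real.log_pow]
      norm_num
    have hlC : Real.log (Cs + 3) ≤ Real.log (Cs + 3) / Real.log 2 * Real.log ((N : ℝ) + 1) := by
      have h0 : 0 ≤ Real.log (Cs + 3) := Real.log_nonneg (by linarith)
      calc Real.log (Cs + 3) = Real.log (Cs + 3) / Real.log 2 * Real.log 2 := by
            field_simp
        _ ≤ _ := mul_le_mul_of_nonneg_left hlN (div_nonneg h0 hlog2.le)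
    have h4 : 4 * Real.log M + Real.log B ≤
        (18 + Real.log (Cs + 3) / Real.log 2) * Real.log ((N : ℝ) + 1) := by
      rw [hlB]; linarith
    calc 4 * psi (Q * M) * Real.log M + psi (Q * M) * Real.log B
        = psi (Q * M) * (4 * Real.log M + Real.log B) := by ring
      _ ≤ psi (Q * M) * ((18 + Real.log (Cs + 3) / Real.log 2) * Real.log ((N : ℝ) + 1)) :=
          mul_le_mul_of_nonneg_left h4 hpsi
      _ = _ := by ring

end Pool.Agent.Helper96.ME
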